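import Pool.Agent.N818.SN.Stm
import Pool.Agent.Y809.BSD14.E0
import Pool.Agent.Y698.Ua

/-!
# Project SN (helper818), part TB (helper897): the Tamagawa numbers of `WB n`
-/

set_option autoImplicit false
set_option linter.unusedSectionVars false

namespace Pool.Agent.N897.SN.TB

open WeierstrassCurve
open Pool.Agent.N818.SN
open Pool.Agent.Y700 (PtP SingRed E0)
open Pool.Agent.Y809.BSD14 (t_E0 nadd nsub nmul npow nneg ladd lneg lsub lmul lmul')
open Pool.Agent.Y698 (Wr Te GP Mq dv dv_T dv_ne mem_GP GP_index)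
open scoped Classical

/-! ### Squares in `ℚ_p` -/

section sq

open Polynomial

lemma padic_sq {p : ℕ} [hp : Fact p.Prime] (hp2 : p ≠ 2) {n : ℤ} (hn : ¬ (p : ℤ) ∣ n)
    (h : IsSquare (n : ZMod p)) : IsSquare (n : ℚ_[p]) := by
  obtain ⟨a, ha⟩ := h
  obtain ⟨s, hs⟩ := ZMod.intCast_surjective a
  have h1 : (p : ℤ) ∣ s ^ 2 - n := by
    rw [← ZMod.intCast_zmod_eq_zero_iff_dvd]
    push_cast
    rw [ha, hs]
    ring
  have h2 : ¬ (p : ℤ) ∣ 2 * s := by
    intro h2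
    have hpi : Prime (p : ℤ) := Nat.prime_iff_prime_int.1 hp.out
    rcases hpi.dvd_or_dvd h2 with h3 | h3
    · have h5 : p ∣ 2 := by exact_mod_cast h3
      exact hp2 ((Nat.prime_dvd_prime_iff_eq hp.out Nat.prime_two).1 h5)
    · apply hn
      have := dvd_sub ((dvd_pow h3 two_ne_zero : (p : ℤ) ∣ s ^ 2)) h1
      simpa using this
  have e1 : ∀ w : ℤ_[p], (aeval w) (X ^ 2 - C (n : ℤ_[p]) : ℤ_[p][X]) = w ^ 2 - n := by
    intro w; simp
  have e2 : ∀ w : ℤ_[p], (aeval w) (derivative (X ^ 2 - C (n : ℤ_[p]) : ℤ_[p][X])) = 2 * w := by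
    intro w; simp; norm_num
  obtain ⟨z, hz, -⟩ := hensels_lemma (p := p) (R := ℤ_[p]) (F := X ^ 2 - C (n : ℤ_[p]))
    (a := (s : ℤ_[p])) (by
      rw [e1, e2]
      have h3 : ‖((s ^ 2 - n : ℤ) : ℤ_[p])‖ < 1 := by
        rw [PadicInt.norm_intCast_lt_one_iff]
        exact h1
      have h4 : ‖((2 * s : ℤ) : ℤ_[p])‖ = 1 := by
        have h5 : ¬ ‖((2 * s : ℤ) : ℤ_[p])‖ < 1 := by
          rw [PadicInt.norm_intCast_lt_one_iff]
          exact h2
        exact le_antisymm (PadicInt.norm_le_one _) (not_lt.1 h5)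
      push_cast at h3 h4
      rw [h4]
      simpa using h3)
  rw [e1] at hz
  have h6 := congrArg (fun w : ℤ_[p] => (w : ℚ_[p])) (sub_eq_zero.1 hz)
  push_cast at h6
  exact ⟨z, by rw [← h6]; ring⟩

lemma padic_sq2 {n : ℤ} (hn : n % 8 = 1) : IsSquare (n : ℚ_[2]) := by
  have e1 : ∀ w : ℤ_[2], (aeval w) (X ^ 2 - C (n : ℤ_[2]) : ℤ_[2][X]) = w ^ 2 - n := by
    intro w; simp
  have e2 : ∀ w : ℤ_[2], (aeval w) (derivative (X ^ 2 - C (n : ℤ_[2]) : ℤ_[2][X])) = 2 * w := by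
    intro w; simp; norm_num
  obtain ⟨z, hz, -⟩ := hensels_lemma (p := 2) (R := ℤ_[2]) (F := X ^ 2 - C (n : ℤ_[2]))
    (a := 1) (by
      rw [e1, e2]
      have h4 : ‖(2 : ℤ_[2])‖ = 2⁻¹ := by
        have := PadicInt.norm_p (p := 2)
        exact_mod_cast this
      have h3 : ‖((1 - n : ℤ) : ℤ_[2])‖ ≤ ((2 : ℕ) : ℝ) ^ (-(3 : ℕ) : ℤ) := by
        rw [PadicInt.norm_int_le_pow_iff_dvd]
        push_cast
        omega
      push_cast at h3
      rw [one_pow, mul_one, h4]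
      refine lt_of_le_of_lt h3 ?_
      norm_num)
  rw [e1] at hz
  have h6 := congrArg (fun w : ℤ_[2] => (w : ℚ_[2])) (sub_eq_zero.1 hz)
  push_cast at h6
  exact ⟨z, by rw [← h6]; ring⟩

end sq

/-! ### The curve -/

section

variable {p : ℕ} [hp : Fact p.Prime] {n : ℕ}

/-- the curve over `ℚ_p` -/
noncomputable abbrev Wp (p : ℕ) [Fact p.Prime] (n : ℕ) : WeierstrassCurve ℚ_[p] :=
  (WB n).map (Int.castRingHom ℚ_[p])

lemma wr {e : ℚ_[p]} (he : e * (e ^ 2 + n * e + (n : ℚ_[p]) ^ 2) = 0)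
    (hb : 3 * e ^ 2 + 2 * n * e + (n : ℚ_[p]) ^ 2 ≠ 0) :
    Wr (Wp p n) e (n + 3 * e) (3 * e ^ 2 + 2 * n * e + (n : ℚ_[p]) ^ 2) where
  k1 := by simp [Wp, WB]
  k2 := by simp [Wp, WB]
  k3 := by simp [Wp, WB]
  k4 := by simp [Wp, WB]; ring
  k6 := by
    simp only [Wp, WB, map_zero, WeierstrassCurve.map_a₆]
    linear_combination he
  hβ := hb

lemma eqn {x y : ℚ_[p]} (h : (Wp p n).toAffine.Equation x y) :
    y ^ 2 = x * (x ^ 2 + n * x + (n : ℚ_[p]) ^ 2) := by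
  rw [Affine.equation_iff] at h
  simp only [Wp, WB, WeierstrassCurve.map_a₁, WeierstrassCurve.map_a₂, WeierstrassCurve.map_a₃,
    WeierstrassCurve.map_a₄, WeierstrassCurve.map_a₆, map_zero, map_pow, map_natCast] at h
  linear_combination h

lemma sing_def {x y : ℚ_[p]} : SingRed (WB n) p x y ↔ ‖x‖ ≤ 1 ∧ ‖y‖ ≤ 1 ∧
    ‖3 * x ^ 2 + 2 * n * x + (n : ℚ_[p]) ^ 2‖ < 1 ∧ ‖2 * y‖ < 1 := by
  unfold SingRed
  have e1 : ((WB n).a₁ : ℚ_[p]) * y - (3 * x ^ 2 + 2 * ((WB n).a₂ : ℚ_[p]) * x +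
      ((WB n).a₄ : ℚ_[p])) = -(3 * x ^ 2 + 2 * n * x + (n : ℚ_[p]) ^ 2) := by
    simp [WB]
  have e2 : 2 * y + ((WB n).a₁ : ℚ_[p]) * x + ((WB n).a₃ : ℚ_[p]) = 2 * y := by
    simp [WB]
  rw [e1, e2, norm_neg]

lemma nn (k : ℕ) : ‖(k : ℚ_[p])‖ ≤ 1 := by
  have := Padic.norm_int_le_one (p := p) (k : ℤ)
  exact_mod_cast this

lemma nu {k : ℕ} (h : ¬ p ∣ k) : ‖(k : ℚ_[p])‖ = 1 := by
  refine le_antisymm (nn k) (not_lt.1 fun h1 => h ?_)
  have h2 : ‖((k : ℤ) : ℚ_[p])‖ < 1 := by exact_mod_cast h1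
  rw [Padic.norm_intCast_lt_one_iff] at h2
  exact_mod_cast h2

lemma nl {k : ℕ} (h : p ∣ k) : ‖(k : ℚ_[p])‖ < 1 := by
  have : ‖((k : ℤ) : ℚ_[p])‖ < 1 := (Padic.norm_intCast_lt_one_iff).2 (by exact_mod_cast h)
  exact_mod_cast this

lemma lt_of_sq {x : ℚ_[p]} (h : ‖x ^ 2‖ < 1) : ‖x‖ < 1 := by
  rw [norm_pow] at h
  by_contra h1
  push Not at h1
  exact absurd h (not_lt.2 (one_le_pow₀ h1))

lemma le_of_lt_one {x : ℚ_[p]} (h : ‖x‖ < 1) : ‖x‖ ≤ ‖(p : ℚ_[p])‖ := by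
  rw [Padic.norm_p]
  have h1 := (Padic.norm_le_pow_iff_norm_lt_pow_add_one x (-1)).2 (by simpa using h)
  rwa [zpow_neg_one] at h1

/-- the membership -/
lemma mem_E0 {x y : ℚ_[p]} (h : (Wp p n).toAffine.Nonsingular x y) :
    (Affine.Point.some x y h : PtP (WB n) p) ∈ E0 (WB n) p ↔ ¬ SingRed (WB n) p x y := by
  rw [t_E0]
  constructor
  · intro h1
    exact h1 x y h rfl
  · intro h1 x' y' h' he
    injection he with e1 e2
    subst e1
    subst e2
    exact h1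

/-- no singular points -/
lemma index_one (h : ∀ x y, (Wp p n).toAffine.Nonsingular x y → ¬ SingRed (WB n) p x y) :
    (E0 (WB n) p).index = 1 := by
  rw [AddSubgroup.index_eq_one, eq_top_iff]
  rintro P -
  rcases P with _ | ⟨x, y, hP⟩
  · exact (E0 (WB n) p).zero_mem
  · exact (mem_E0 hP).2 (h x y hP)

/-- good reduction -/
lemma good (h2 : p ≠ 2) (h3 : p ≠ 3) (hn : ¬ p ∣ n) : (E0 (WB n) p).index = 1 := by
  apply index_one
  intro x y h hs
  rw [sing_def] at hs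
  obtain ⟨hx, hy, h4, h5⟩ := hs
  have hE := eqn h.1
  have n2 : ‖(2 : ℚ_[p])‖ = 1 := by
    have := nu (p := p) (k := 2) (fun hd => h2 ((Nat.prime_dvd_prime_iff_eq hp.out Nat.prime_two).1 hd))
    exact_mod_cast this
  have n3 : ‖(3 : ℚ_[p])‖ = 1 := by
    have := nu (p := p) (k := 3) (fun hd => h3 ((Nat.prime_dvd_prime_iff_eq hp.out Nat.prime_three).1 hd))
    exact_mod_cast this
  have nN := nu (p := p) hn
  have h6 : ‖y‖ < 1 := by rwa [norm_mul, n2, one_mul] at h5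
  have e : 3 * (n : ℚ_[p]) ^ 4 = -(((12 : ℕ) : ℚ_[p]) * x + ((11 : ℕ) : ℚ_[p]) * n) * y ^ 2 +
      (((4 : ℕ) : ℚ_[p]) * x ^ 2 + ((5 : ℕ) : ℚ_[p]) * (n * x) + ((3 : ℕ) : ℚ_[p]) * n ^ 2) *
        (3 * x ^ 2 + 2 * n * x + (n : ℚ_[p]) ^ 2) := by
    rw [hE]
    push_cast
    ring
  have l : ‖3 * (n : ℚ_[p]) ^ 4‖ < 1 := by
    rw [e]
    refine ladd (lmul ?_ ?_) (lmul ?_ h4)
    · exact nneg (nadd (nmul (nn _) hx) (nmul (nn _) (nn _)))
    · rw [pow_two]
      exact lmul hy h6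
    · exact nadd (nadd (nmul (nn _) (npow hx 2)) (nmul (nn _) (nmul (nn _) hx)))
        (nmul (nn _) (npow (nn _) 2))
  rw [norm_mul, norm_pow, n3, nN] at l
  norm_num at l

/-- singular reduction at the prime divisors of `n` -/
lemma sing_ram (h3 : p ≠ 3) (hn : p ∣ n) {x y : ℚ_[p]}
    (h : (Wp p n).toAffine.Nonsingular x y) : SingRed (WB n) p x y ↔ ‖x‖ < 1 := by
  have hE := eqn h.1
  have n3 : ‖(3 : ℚ_[p])‖ = 1 := by
    have := nu (p := p) (k := 3) (fun hd => h3 ((Nat.prime_dvd_prime_iff_eq hp.out Nat.prime_three).1 hd))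
    exact_mod_cast this
  have n2 : ‖(2 : ℚ_[p])‖ ≤ 1 := by exact_mod_cast nn (p := p) 2
  have nN := nl hn
  rw [sing_def]
  constructor
  · rintro ⟨hx, hy, h4, h5⟩
    have e : 3 * x ^ 2 = (3 * x ^ 2 + 2 * n * x + (n : ℚ_[p]) ^ 2) - n * (2 * x + n) := by ring
    have l : ‖3 * x ^ 2‖ < 1 := by
      rw [e]
      exact lsub h4 (lmul' nN (nadd (nmul n2 hx) (nn _)))
    rw [norm_mul, n3, one_mul] at l
    exact lt_of_sq l
  · intro hx
    have hy : ‖y‖ < 1 := by
      apply lt_of_sq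
      rw [hE]
      exact lmul' hx (nadd (nadd (npow hx.le 2) (nmul (nn _) hx.le)) (npow (nn _) 2))
    refine ⟨hx.le, hy.le, ?_, lmul n2 hy⟩
    have e : 3 * x ^ 2 + 2 * n * x + (n : ℚ_[p]) ^ 2 = 3 * x * x + n * (2 * x + n) := by ring
    rw [e]
    exact ladd (lmul (nmul n3.le hx.le) hx) (lmul' nN (nadd (nmul n2 hx.le) (nn _)))

/-- translation by a point of order two -/
lemma shift (hsing : ∀ x y, (Wp p n).toAffine.Nonsingular x y → (SingRed (WB n) p x y ↔ ‖x‖ < 1))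
    {e α β : ℚ_[p]} (S : Wr (Wp p n) e α β) (he : ‖e‖ < 1) {x y : ℚ_[p]}
    (h : (Wp p n).toAffine.Nonsingular x y) (hx : x ≠ e) (hv : ‖x - e‖ ≤ ‖β‖) :
    (Affine.Point.some x y h + Te S : PtP (WB n) p) ∈ E0 (WB n) p := by
  obtain ⟨Y', h', e'⟩ := S.add_T hx h
  rw [e', mem_E0, hsing _ _ h']
  intro hc
  have h1 : 1 ≤ ‖β / (x - e)‖ := by
    rw [norm_div, one_le_div (norm_pos_iff.2 (sub_ne_zero.2 hx))]
    exact hv
  have h2 : ‖β / (x - e)‖ < 1 := by
    have e2 : β / (x - e) = (e + β / (x - e)) - e := by ring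
    rw [e2]
    exact lsub hc he
  linarith

/-- the prime three -/
lemma three (hn : n % 3 = 2) : (E0 (WB n) 3).index = 1 := by
  apply index_one
  intro x y h hs
  rw [sing_def] at hs
  obtain ⟨hx, hy, h4, h5⟩ := hs
  have hE := eqn h.1
  have n3 : ‖(3 : ℚ_[3])‖ = 1 / 3 := by
    have := Padic.norm_p (p := 3)
    rw [one_div]
    exact_mod_cast this
  have n2 : ‖(2 : ℚ_[3])‖ = 1 := by
    have := nu (p := 3) (k := 2) (by norm_num)
    exact_mod_cast this
  have nN : ‖(n : ℚ_[3])‖ = 1 := nu (by omega)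
  have ly : ‖y‖ < 1 := by rwa [norm_mul, n2, one_mul] at h5
  have lx : ‖x - n‖ < 1 := by
    have e : n * (2 * (x - n)) = (3 * x ^ 2 + 2 * n * x + (n : ℚ_[3]) ^ 2) -
        3 * (x ^ 2 + (n : ℚ_[3]) ^ 2) := by ring
    have l : ‖n * (2 * (x - n))‖ < 1 := by
      rw [e]
      refine lsub h4 (lmul' ?_ (nadd (npow hx 2) (npow (nn _) 2)))
      rw [n3]
      norm_num
    rwa [norm_mul, norm_mul, nN, n2, one_mul, one_mul] at l
  have l13 : ∀ z : ℚ_[3], ‖z‖ < 1 → ‖z‖ ≤ 1 / 3 := by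
    intro z hz
    have := le_of_lt_one hz
    rw [← n3]
    exact_mod_cast this
  have ly' := l13 _ ly
  have lu := l13 _ lx
  have e : 3 * (n : ℚ_[3]) ^ 3 = y * y - (3 * ((2 : ℕ) * (n : ℚ_[3]) ^ 2) * (x - n) +
      ((4 : ℕ) * n + (x - n)) * ((x - n) * (x - n))) := by
    push_cast
    linear_combination -hE
  have l1 : ‖3 * (n : ℚ_[3]) ^ 3‖ = 1 / 3 := by
    rw [norm_mul, norm_pow, nN, n3]
    norm_num
  have m1 : ∀ a b : ℚ_[3], ‖a‖ ≤ 1 / 3 → ‖b‖ ≤ 1 / 3 → ‖a * b‖ ≤ 1 / 9 := by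
    intro a b ha hb
    rw [norm_mul]
    calc ‖a‖ * ‖b‖ ≤ (1 / 3) * (1 / 3) := mul_le_mul ha hb (norm_nonneg _) (by norm_num)
      _ = 1 / 9 := by norm_num
  have l2 : ‖3 * (n : ℚ_[3]) ^ 3‖ ≤ 1 / 9 := by
    rw [e, sub_eq_add_neg]
    refine (IsUltrametricDist.norm_add_le_max _ _).trans (max_le (m1 _ _ ly' ly') ?_)
    rw [norm_neg]
    refine (IsUltrametricDist.norm_add_le_max _ _).trans (max_le (m1 _ _ ?_ lu) ?_)
    · rw [norm_mul, n3]
      exact le_trans (mul_le_mul_of_nonneg_left (nmul (nn (p := 3) 2) (npow (nn (p := 3) n) 2))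
        (by norm_num)) (by norm_num)
    · rw [norm_mul]
      have h6 := m1 _ _ lu lu
      have h7 : ‖((4 : ℕ) : ℚ_[3]) * n + (x - n)‖ ≤ 1 := nadd (nmul (nn _) (nn _)) lx.le
      calc ‖((4 : ℕ) : ℚ_[3]) * n + (x - n)‖ * ‖(x - n) * (x - n)‖ ≤ 1 * (1 / 9) :=
            mul_le_mul h7 h6 (norm_nonneg _) zero_le_one
        _ = 1 / 9 := one_mul _
  rw [l1] at l2
  norm_num at l2

/-! ### The valuation -/

lemma normlt_iff {x : ℚ_[p]} (hx : x ≠ 0) : ‖x‖ < 1 ↔ 0 < x.valuation := by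
  rw [Padic.norm_eq_zpow_neg_valuation hx]
  have h1 : (1 : ℝ) < p := by exact_mod_cast hp.out.one_lt
  rw [zpow_lt_one_iff_right₀ h1]
  omega

lemma norm_le_iff {x y : ℚ_[p]} (hx : x ≠ 0) (hy : y ≠ 0) :
    ‖x‖ ≤ ‖y‖ ↔ y.valuation ≤ x.valuation := by
  rw [Padic.norm_eq_zpow_neg_valuation hx, Padic.norm_eq_zpow_neg_valuation hy]
  have h1 : (1 : ℝ) < p := by exact_mod_cast hp.out.one_lt
  rw [zpow_le_zpow_iff_right₀ h1]
  omega

lemma val_n (h : p ∣ n) (hs : Squarefree n) : (n : ℚ_[p]) ≠ 0 ∧ (n : ℚ_[p]).valuation = 1 ∧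
    ‖(n : ℚ_[p])‖ < 1 := by
  have h0 : (n : ℚ_[p]) ≠ 0 := by exact_mod_cast hs.ne_zero
  refine ⟨h0, ?_, nl h⟩
  obtain ⟨k, rfl⟩ := h
  have hk : ¬ p ∣ k := by
    rintro ⟨j, rfl⟩
    have h1 : p * p ∣ p * (p * j) := ⟨j, by ring⟩
    have h2 := hs p h1
    exact hp.out.one_lt.ne' (Nat.isUnit_iff.1 h2)
  have hk0 : (k : ℚ_[p]) ≠ 0 := by
    intro h1
    rw [Nat.cast_mul, h1, mul_zero] at h0
    exact h0 rfl
  have hp0 : (p : ℚ_[p]) ≠ 0 := by exact_mod_cast hp.out.ne_zero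
  rw [Nat.cast_mul, Padic.valuation_mul hp0 hk0, Padic.valuation_p]
  have h3 : (k : ℚ_[p]).valuation = 0 := by
    have h4 := nu hk
    have h5 : ¬ (0 < (k : ℚ_[p]).valuation) := by
      rw [← normlt_iff hk0, h4]
      exact lt_irrefl _
    have h6 := (norm_le_iff hk0 (one_ne_zero (α := ℚ_[p]))).1 (by rw [h4, norm_one])
    rw [Padic.valuation_one] at h6
    omega
  rw [h3]
  rfl

/-- the index of a subgroup with four classes -/
lemma index_four {G : Type} [AddCommGroup G] (H : AddSubgroup G) (a b : G) (ha : a + a = 0)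
    (hb : b + b = 0) (h1 : a ∉ H) (h2 : b ∉ H) (h3 : a + b ∉ H)
    (hs : ∀ P, P ∈ H ∨ P + a ∈ H ∨ P + b ∈ H ∨ P + (a + b) ∈ H) : H.index = 4 := by
  set T : Fin 4 → G := ![0, a, b, a + b] with hT
  have h2T : ∀ i, T i + T i = 0 := by
    intro i
    fin_cases i
    · simp [hT]
    · simpa [hT] using ha
    · simpa [hT] using hb
    · show (a + b) + (a + b) = 0
      have : (a + b) + (a + b) = (a + a) + (b + b) := by abel
      rw [this, ha, hb, add_zero]
  have h2' : ∀ i, - T i = T i := fun i => neg_eq_of_add_eq_zero_left (h2T i)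
  rw [AddSubgroup.index, ← Nat.card_eq_of_bijective (α := Fin 4)
    (fun i => (QuotientAddGroup.mk (T i) : G ⧸ H)), Nat.card_eq_fintype_card, Fintype.card_fin]
  have e1 : a + (a + b) = b := by rw [← add_assoc, ha, zero_add]
  have e2 : b + (a + b) = a := by
    have : b + (a + b) = a + (b + b) := by abel
    rw [this, hb, add_zero]
  have e3 : a + b + a = b := by
    have : a + b + a = (a + a) + b := by abel
    rw [this, ha, zero_add]
  have e4 : a + b + b = a := by rw [add_assoc, hb, add_zero]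
  have e5 : b + a = a + b := add_comm _ _
  constructor
  · intro i j hij
    simp only at hij
    rw [QuotientAddGroup.eq, h2'] at hij
    fin_cases i <;> fin_cases j <;>
      first
      | rfl
      | (exfalso
         simp only [hT, Fin.mk_zero, Fin.mk_one, Fin.isValue, Fin.reduceFinMk, Matrix.cons_val_zero,
          Matrix.cons_val_one, Matrix.cons_val, zero_add, add_zero, e1, e2, e3, e4, e5] at hij
         first
         | exact h1 hij
         | exact h2 hij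
         | exact h3 hij)
  · intro q
    induction q using QuotientAddGroup.induction_on with
    | H P =>
      rcases hs P with h | h | h | h
      · refine ⟨0, ?_⟩
        simp only
        rw [QuotientAddGroup.eq, h2', add_comm]
        simpa [hT] using h
      · refine ⟨1, ?_⟩
        simp only
        rw [QuotientAddGroup.eq, h2', add_comm]
        exact h
      · refine ⟨2, ?_⟩
        simp only
        rw [QuotientAddGroup.eq, h2', add_comm]
        exact h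
      · refine ⟨3, ?_⟩
        simp only
        rw [QuotientAddGroup.eq, h2', add_comm]
        exact h

/-- the point `(0, 0)` -/
lemma wr0 (hn : (n : ℚ_[p]) ≠ 0) : Wr (Wp p n) 0 n ((n : ℚ_[p]) ^ 2) := by
  have := wr (p := p) (n := n) (e := 0) (by ring) (by
    have : 3 * (0 : ℚ_[p]) ^ 2 + 2 * n * 0 + (n : ℚ_[p]) ^ 2 = (n : ℚ_[p]) ^ 2 := by ring
    rw [this]
    exact pow_ne_zero 2 hn)
  have e1 : (n : ℚ_[p]) + 3 * 0 = n := by ring
  have e2 : 3 * (0 : ℚ_[p]) ^ 2 + 2 * n * 0 + (n : ℚ_[p]) ^ 2 = (n : ℚ_[p]) ^ 2 := by ring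
  rwa [e1, e2] at this

lemma no_root (h : p % 3 = 2) (a : ZMod p) : a ^ 2 + a + 1 ≠ 0 := by
  intro h0
  have h1 : a ^ 3 = 1 := by linear_combination (a - 1) * h0
  have h2 : a ≠ 1 := by
    rintro rfl
    have h3 : ((3 : ℕ) : ZMod p) = 0 := by
      push_cast
      linear_combination h0
    rw [ZMod.natCast_eq_zero_iff] at h3
    have h4 := (Nat.prime_dvd_prime_iff_eq hp.out Nat.prime_three).1 h3
    omega
  have h3 : a ≠ 0 := by
    rintro rfl
    norm_num at h1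
  have : Fact (Nat.Prime 3) := ⟨Nat.prime_three⟩
  have ho : orderOf a = 3 := orderOf_eq_prime h1 h2
  have h4 := ZMod.orderOf_dvd_card_sub_one h3
  rw [ho] at h4
  have := hp.out.one_lt
  omega

lemma unit_t (h : p % 3 = 2) {t : ℚ_[p]} (ht : ‖t‖ ≤ 1) : ‖t ^ 2 + t + 1‖ = 1 := by
  refine le_antisymm (nadd (nadd (npow ht 2) ht) (by rw [norm_one])) (not_lt.1 fun hlt => ?_)
  let s : ℤ_[p] := ⟨t, ht⟩
  have h1 : ‖s ^ 2 + s + 1‖ < 1 := hlt
  have h2 : (s ^ 2 + s + 1) ∈ RingHom.ker (PadicInt.toZMod (p := p)) := by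
    rw [PadicInt.ker_toZMod, IsLocalRing.mem_maximalIdeal, PadicInt.mem_nonunits]
    exact h1
  rw [RingHom.mem_ker, map_add, map_add, map_pow, map_one] at h2
  exact no_root h _ h2

/-- ramified primes, one rational point of order two -/
lemma ram_two (h3 : p % 3 = 2) (hn : p ∣ n) (hs : Squarefree n) : (E0 (WB n) p).index = 2 := by
  obtain ⟨n0, vn, ln⟩ := val_n hn hs
  have hp3 : p ≠ 3 := by omega
  have hsing : ∀ x y, (Wp p n).toAffine.Nonsingular x y → (SingRed (WB n) p x y ↔ ‖x‖ < 1) :=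
    fun x y h => sing_ram hp3 hn h
  set S := wr0 n0 with hS
  have hT : (Te S : PtP (WB n) p) ∉ E0 (WB n) p := by
    unfold Te
    rw [mem_E0, hsing _ _ S.T_ns, norm_zero]
    exact fun h => h one_pos
  rw [AddSubgroup.index_eq_two_iff]
  refine ⟨Te S, fun P => ?_⟩
  by_cases hP : P ∈ E0 (WB n) p
  · refine Or.inr ⟨hP, fun h3 => hT ?_⟩
    have := (E0 (WB n) p).sub_mem h3 hP
    rwa [add_sub_cancel_left] at this
  · refine Or.inl ⟨?_, hP⟩
    rcases P with _ | ⟨x, y, h⟩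
    · exact absurd (E0 (WB n) p).zero_mem hP
    by_cases hx : x = 0
    · rw [S.eq_T hx h, S.T_add_T]
      exact (E0 (WB n) p).zero_mem
    · have lx : ‖x‖ < 1 := by
        by_contra hc
        exact hP ((mem_E0 h).2 (fun h1 => hc ((hsing _ _ h).1 h1)))
      refine shift hsing S (by rw [norm_zero]; exact one_pos) h hx ?_
      rw [sub_zero, norm_le_iff hx (pow_ne_zero 2 n0), Padic.valuation_pow, vn]
      have vx := (normlt_iff hx).1 lx
      have hE := eqn h.1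
      -- x = n t
      set t := x / n with ht
      have ext : x = n * t := by rw [ht]; field_simp
      have t0 : t ≠ 0 := div_ne_zero hx n0
      have lt1 : ‖t‖ ≤ 1 := by
        rw [← norm_one (α := ℚ_[p]), norm_le_iff t0 one_ne_zero, Padic.valuation_one]
        have := Padic.valuation_mul n0 t0
        rw [← ext, vn] at this
        omega
      have hu := unit_t h3 lt1
      have hu0 : t ^ 2 + t + 1 ≠ 0 := by
        intro h1
        rw [h1, norm_zero] at hu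
        exact zero_ne_one hu
      have vu : (t ^ 2 + t + 1).valuation = 0 := by
        have h5 : ¬ (0 < (t ^ 2 + t + 1).valuation) := by
          rw [← normlt_iff hu0, hu]
          exact lt_irrefl _
        have h6 := (norm_le_iff hu0 (one_ne_zero (α := ℚ_[p]))).1 (by rw [hu, norm_one])
        rw [Padic.valuation_one] at h6
        omega
      have hE' : y ^ 2 = n ^ 3 * t * (t ^ 2 + t + 1) := by
        rw [hE, ext]
        ring
      have y0 : y ≠ 0 := by
        rintro rfl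
        rw [zero_pow two_ne_zero] at hE'
        exact (mul_ne_zero (mul_ne_zero (pow_ne_zero 3 n0) t0) hu0) hE'.symm
      have h7 := congrArg Padic.valuation hE'
      rw [Padic.valuation_pow, Padic.valuation_mul (mul_ne_zero (pow_ne_zero 3 n0) t0) hu0,
        Padic.valuation_mul (pow_ne_zero 3 n0) t0, Padic.valuation_pow, vn, vu] at h7
      have h8 := Padic.valuation_mul n0 t0
      rw [← ext, vn] at h8
      push_cast at h7 ⊢
      omega

/-- the roots -/
lemma root_facts (hp3 : p ≠ 3) {w : ℚ_[p]} (hw : w ^ 2 + w + 1 = 0) : ‖w‖ = 1 ∧ ‖2 * w + 1‖ = 1 := by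
  constructor
  · have h1 : w ^ 3 = 1 := by linear_combination (w - 1) * hw
    have h2 := congrArg norm h1
    rw [norm_pow, norm_one] at h2
    exact (pow_eq_one_iff_of_nonneg (norm_nonneg _) three_ne_zero).1 h2
  · have h1 : (2 * w + 1) ^ 2 = -((3 : ℕ) : ℚ_[p]) := by
      push_cast
      linear_combination 4 * hw
    have h2 := congrArg norm h1
    rw [norm_neg, nu (fun hd => hp3 ((Nat.prime_dvd_prime_iff_eq hp.out Nat.prime_three).1 hd)),
      norm_pow] at h2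
    exact (pow_eq_one_iff_of_nonneg (norm_nonneg _) two_ne_zero).1 h2

lemma wr1 (hp3 : p ≠ 3) (hn : (n : ℚ_[p]) ≠ 0) {w : ℚ_[p]} (hw : w ^ 2 + w + 1 = 0) :
    Wr (Wp p n) (n * w) (n + 3 * (n * w)) ((n : ℚ_[p]) ^ 2 * (w * (2 * w + 1))) := by
  obtain ⟨h1, h2⟩ := root_facts hp3 hw
  have w0 : w ≠ 0 := by
    rintro rfl
    norm_num at hw
  have w1 : 2 * w + 1 ≠ 0 := by
    intro h
    rw [h, norm_zero] at h2
    exact zero_ne_one h2
  have e : 3 * ((n : ℚ_[p]) * w) ^ 2 + 2 * n * (n * w) + (n : ℚ_[p]) ^ 2 =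
      (n : ℚ_[p]) ^ 2 * (w * (2 * w + 1)) := by
    linear_combination (n : ℚ_[p]) ^ 2 * hw
  have := wr (p := p) (n := n) (e := n * w) (by linear_combination (n : ℚ_[p]) ^ 3 * w * hw) (by
    rw [e]
    exact mul_ne_zero (pow_ne_zero 2 hn) (mul_ne_zero w0 w1))
  rwa [e] at this

/-- ramified primes, all points of order two rational -/
lemma ram_four (hp3 : p ≠ 3) (hn : p ∣ n) (hs : Squarefree n) {w : ℚ_[p]}
    (hw : w ^ 2 + w + 1 = 0) : (E0 (WB n) p).index = 4 := by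
  obtain ⟨n0, vn, ln⟩ := val_n hn hs
  have hsing : ∀ x y, (Wp p n).toAffine.Nonsingular x y → (SingRed (WB n) p x y ↔ ‖x‖ < 1) :=
    fun x y h => sing_ram hp3 hn h
  have hw2 : (-1 - w) ^ 2 + (-1 - w) + 1 = 0 := by linear_combination hw
  obtain ⟨nw, nw'⟩ := root_facts hp3 hw
  obtain ⟨mw, mw'⟩ := root_facts hp3 hw2
  set S := wr0 (p := p) n0 with hS
  set S1 := wr1 (p := p) hp3 n0 hw with hS1
  set S2 := wr1 (p := p) hp3 n0 hw2 with hS2
  have w0 : w ≠ 0 := by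
    rintro rfl
    norm_num at hw
  have r0 : (n : ℚ_[p]) * w ≠ 0 := mul_ne_zero n0 w0
  have hsum : (Te S1 : PtP (WB n) p) + Te S = Te S2 := by
    obtain ⟨Y', h', e'⟩ := S.add_T r0 S1.T_ns
    show (Affine.Point.some (n * w) 0 S1.T_ns : (Wp p n).toAffine.Point) + Te S = Te S2
    rw [e']
    apply S2.eq_T
    rw [zero_add, sub_zero, div_eq_iff r0]
    linear_combination (n : ℚ_[p]) ^ 2 * hw
  have hno : ∀ {e α β : ℚ_[p]} (S : Wr (Wp p n) e α β), ‖e‖ < 1 →
      (Te S : PtP (WB n) p) ∉ E0 (WB n) p := by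
    intro e α β S he
    unfold Te
    rw [mem_E0, hsing _ _ S.T_ns]
    exact fun h => h he
  have l1 : ‖(n : ℚ_[p]) * w‖ < 1 := by rwa [norm_mul, nw, mul_one]
  have l2 : ‖(n : ℚ_[p]) * (-1 - w)‖ < 1 := by rwa [norm_mul, mw, mul_one]
  refine index_four (E0 (WB n) p) (Te S1) (Te S) S1.T_add_T S.T_add_T (hno S1 l1)
    (hno S (by rw [norm_zero]; exact one_pos)) (by rw [hsum]; exact hno S2 l2) ?_
  intro P
  by_cases hP : P ∈ E0 (WB n) p
  · exact Or.inl hP
  right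
  rcases P with _ | ⟨x, y, h⟩
  · exact absurd (E0 (WB n) p).zero_mem hP
  have lx : ‖x‖ < 1 := by
    by_contra hc
    exact hP ((mem_E0 h).2 (fun h1 => hc ((hsing _ _ h).1 h1)))
  rw [hsum]
  have hE := eqn h.1
  by_cases c0 : x = 0
  · right; left
    rw [S.eq_T c0 h, S.T_add_T]
    exact (E0 (WB n) p).zero_mem
  by_cases c1 : x = n * w
  · left
    rw [S1.eq_T c1 h, S1.T_add_T]
    exact (E0 (WB n) p).zero_mem
  by_cases c2 : x = n * (-1 - w)
  · right; right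
    rw [S2.eq_T c2 h, S2.T_add_T]
    exact (E0 (WB n) p).zero_mem
  have d1 : x - n * w ≠ 0 := sub_ne_zero.2 c1
  have d2 : x - n * (-1 - w) ≠ 0 := sub_ne_zero.2 c2
  have hE' : y ^ 2 = x * (x - n * w) * (x - n * (-1 - w)) := by
    rw [hE]
    linear_combination (n : ℚ_[p]) ^ 2 * x * hw
  have y0 : y ≠ 0 := by
    rintro rfl
    rw [zero_pow two_ne_zero] at hE'
    exact (mul_ne_zero (mul_ne_zero c0 d1) d2) hE'.symm
  have h7 := congrArg Padic.valuation hE'
  rw [Padic.valuation_pow, Padic.valuation_mul (mul_ne_zero c0 d1) d2,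
    Padic.valuation_mul c0 d1] at h7
  have v0 := (normlt_iff c0).1 lx
  have v1 := (normlt_iff d1).1 (lsub lx l1)
  have v2 := (normlt_iff d2).1 (lsub lx l2)
  have nb : ∀ u : ℚ_[p], ‖u‖ = 1 → ‖2 * u + 1‖ = 1 →
      ‖(n : ℚ_[p]) ^ 2 * (u * (2 * u + 1))‖ = ‖(n : ℚ_[p]) ^ 2‖ := by
    intro u h1 h2
    rw [norm_mul, norm_mul, h1, h2, mul_one, mul_one]
  have vn2 : ((n : ℚ_[p]) ^ 2).valuation = 2 := by
    rw [Padic.valuation_pow, vn]
    norm_num
  have hcases : 2 ≤ x.valuation ∨ 2 ≤ (x - n * w).valuation ∨ 2 ≤ (x - n * (-1 - w)).valuation := by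
    push_cast at h7
    omega
  rcases hcases with c | c | c
  · right; left
    refine shift hsing S (by rw [norm_zero]; exact one_pos) h c0 ?_
    rw [sub_zero, norm_le_iff c0 (pow_ne_zero 2 n0), vn2]
    exact c
  · left
    refine shift hsing S1 l1 h c1 ?_
    rw [nb w nw nw', norm_le_iff d1 (pow_ne_zero 2 n0), vn2]
    exact c
  · right; right
    refine shift hsing S2 l2 h c2 ?_
    rw [nb _ mw mw', norm_le_iff d2 (pow_ne_zero 2 n0), vn2]
    exact c

/-- the root of unity -/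
lemma exists_root (hp2 : p ≠ 2) (hp3 : p ≠ 3) (h : p % 3 = 1) : ∃ w : ℚ_[p], w ^ 2 + w + 1 = 0 := by
  have : Fact (Nat.Prime 3) := ⟨Nat.prime_three⟩
  have hd : 3 ∣ Fintype.card (ZMod p)ˣ := by
    rw [ZMod.card_units]
    omega
  obtain ⟨g, hg⟩ := exists_prime_orderOf_dvd_card 3 hd
  have h1 : g ^ 3 = 1 := by rw [← hg]; exact pow_orderOf_eq_one g
  have h2 : (g : ZMod p) ^ 3 = 1 := by
    have := congrArg (fun u : (ZMod p)ˣ => (u : ZMod p)) h1
    simpa using this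
  have h3 : (g : ZMod p) ≠ 1 := by
    intro h3
    have : g = 1 := Units.ext h3
    rw [this, orderOf_one] at hg
    omega
  have h4 : (g : ZMod p) ^ 2 + g + 1 = 0 := by
    have : ((g : ZMod p) - 1) * ((g : ZMod p) ^ 2 + g + 1) = 0 := by linear_combination h2
    rcases mul_eq_zero.1 this with h5 | h5
    · exact absurd (sub_eq_zero.1 h5) h3
    · exact h5
  have h5 : IsSquare (((-3 : ℤ)) : ZMod p) := ⟨2 * g + 1, by
    push_cast
    linear_combination -4 * h4⟩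
  obtain ⟨s, hs⟩ := padic_sq hp2 (n := -3) (by
    intro hd
    rw [dvd_neg] at hd
    have h6 : p ∣ 3 := by exact_mod_cast hd
    exact hp3 ((Nat.prime_dvd_prime_iff_eq hp.out Nat.prime_three).1 h6)) h5
  refine ⟨(-1 + s) / 2, ?_⟩
  push_cast at hs
  field_simp
  linear_combination -hs

end

/-! ### The prime two -/

section two

/-- one modulo four, up to a power of two -/
def pr (x : ℚ_[2]) : Prop := ∃ k : ℤ, ‖x * 2 ^ k - 1‖ ≤ 1 / 4

lemma n2 : ‖(2 : ℚ_[2])‖ = 1 / 2 := by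
  have := Padic.norm_p (p := 2)
  rw [one_div]
  exact_mod_cast this

lemma half {x : ℚ_[2]} (h : ‖x‖ < 1) : ‖x‖ ≤ 1 / 2 := by
  have := le_of_lt_one h
  rw [← n2]
  exact_mod_cast this

lemma near {x : ℚ_[2]} (h : ‖x - 1‖ ≤ 1 / 4) : ‖x‖ = 1 := by
  have h1 : ‖x - 1‖ < ‖(1 : ℚ_[2])‖ := by
    rw [norm_one]
    linarith
  have h2 := IsUltrametricDist.norm_add_eq_max_of_norm_ne_norm h1.ne
  rw [sub_add_cancel, max_eq_right h1.le, norm_one] at h2
  exact h2

lemma near_mul {x y : ℚ_[2]} (hx : ‖x - 1‖ ≤ 1 / 4) (hy : ‖y - 1‖ ≤ 1 / 4) :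
    ‖x * y - 1‖ ≤ 1 / 4 := by
  have e : x * y - 1 = (x - 1) * y + (y - 1) := by ring
  rw [e]
  refine (IsUltrametricDist.norm_add_le_max _ _).trans (max_le ?_ hy)
  rw [norm_mul, near hy, mul_one]
  exact hx

lemma pr_mul {x y : ℚ_[2]} (hx : pr x) (hy : pr y) : pr (x * y) := by
  obtain ⟨k, hk⟩ := hx
  obtain ⟨l, hl⟩ := hy
  refine ⟨k + l, ?_⟩
  have e : x * y * 2 ^ (k + l) = (x * 2 ^ k) * (y * 2 ^ l) := by
    rw [zpow_add₀ two_ne_zero]
    ring
  rw [e]
  exact near_mul hk hl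

lemma pr_inv {x : ℚ_[2]} (hx : pr x) : pr x⁻¹ := by
  obtain ⟨k, hk⟩ := hx
  refine ⟨-k, ?_⟩
  have h1 := near hk
  have h0 : x * 2 ^ k ≠ 0 := by
    intro h
    rw [h, norm_zero] at h1
    exact zero_ne_one h1
  have e : x⁻¹ * 2 ^ (-k) - 1 = -((x * 2 ^ k - 1) / (x * 2 ^ k)) := by
    rw [zpow_neg, ← mul_inv, sub_div, div_self h0, one_div]
    ring
  rw [e, norm_neg, norm_div, h1, div_one]
  exact hk

lemma n4 : ‖(4 : ℚ_[2])‖ = 1 / 4 := by
  have e : (4 : ℚ_[2]) = 2 ^ 2 := by norm_num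
  rw [e, norm_pow, n2]
  norm_num

/-- a unit or its negative is one modulo four -/
lemma unit_pm {u : ℚ_[2]} (hu : ‖u‖ = 1) : ‖u - 1‖ < 1 ∧ ‖u + 1‖ < 1 ∧
    (‖u - 1‖ ≤ 1 / 4 ∨ ‖u + 1‖ ≤ 1 / 4) := by
  have key : ∀ v : ℚ_[2], ‖v‖ = 1 → ‖v - 1‖ < 1 := by
    intro v hv
    let s : ℤ_[2] := ⟨v, hv.le⟩
    have h1 : IsUnit s := PadicInt.isUnit_iff.2 hv
    have h2 := h1.map (PadicInt.toZMod (p := 2))
    have h3 : ∀ t : ZMod 2, IsUnit t → t = 1 := by decide
    have h4 := h3 _ h2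
    have h5 : (s - 1) ∈ RingHom.ker (PadicInt.toZMod (p := 2)) := by
      rw [RingHom.mem_ker, map_sub, map_one, h4, sub_self]
    rw [PadicInt.ker_toZMod, IsLocalRing.mem_maximalIdeal, PadicInt.mem_nonunits] at h5
    exact h5
  have h1 := key u hu
  have h2 : ‖u + 1‖ < 1 := by
    have h3 := key (-u) (by rwa [norm_neg])
    have e : -u - 1 = -(u + 1) := by ring
    rwa [e, norm_neg] at h3
  refine ⟨h1, h2, ?_⟩
  by_contra hc
  push Not at hc
  obtain ⟨c1, c2⟩ := hc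
  have m1 : ‖(u - 1) / 2‖ = 1 := by
    rw [norm_div, n2]
    by_contra hne
    have h3 := half h1
    have h4 : ‖(u - 1) / 2‖ < 1 := by
      rw [norm_div, n2]
      rcases lt_or_eq_of_le (show ‖u - 1‖ / (1 / 2) ≤ 1 by linarith) with h5 | h5
      · exact h5
      · exact absurd h5 hne
    have h5 := half h4
    rw [norm_div, n2] at h5
    linarith
  have m2 : ‖(u + 1) / 2‖ = 1 := by
    rw [norm_div, n2]
    by_contra hne
    have h3 := half h2
    have h4 : ‖(u + 1) / 2‖ < 1 := by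
      rw [norm_div, n2]
      rcases lt_or_eq_of_le (show ‖u + 1‖ / (1 / 2) ≤ 1 by linarith) with h5 | h5
      · exact h5
      · exact absurd h5 hne
    have h5 := half h4
    rw [norm_div, n2] at h5
    linarith
  have h3 := key _ m1
  have h4 := key _ m2
  have h5 := lsub h4 h3
  have e : (u + 1) / 2 - 1 - ((u - 1) / 2 - 1) = 1 := by ring
  rw [e, norm_one] at h5
  exact lt_irrefl _ h5

lemma unit_sq {u : ℚ_[2]} (hu : ‖u‖ = 1) : ‖u ^ 2 - 1‖ ≤ 1 / 8 := by
  obtain ⟨h1, h2, h3⟩ := unit_pm hu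
  have e : u ^ 2 - 1 = (u - 1) * (u + 1) := by ring
  rw [e, norm_mul]
  have g1 := half h1
  have g2 := half h2
  rcases h3 with h | h
  · calc ‖u - 1‖ * ‖u + 1‖ ≤ (1 / 4) * (1 / 2) := mul_le_mul h g2 (norm_nonneg _) (by norm_num)
      _ = 1 / 8 := by norm_num
  · calc ‖u - 1‖ * ‖u + 1‖ ≤ (1 / 2) * (1 / 4) := mul_le_mul g1 h (norm_nonneg _) (by norm_num)
      _ = 1 / 8 := by norm_num

/-- the unit part -/
lemma unit_part {x : ℚ_[2]} (hx : x ≠ 0) : ∃ k : ℤ, ‖x * 2 ^ k‖ = 1 := by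
  refine ⟨-x.valuation, ?_⟩
  rw [norm_mul, norm_zpow, n2, Padic.norm_eq_zpow_neg_valuation hx, one_div, inv_zpow', neg_neg]
  push_cast
  rw [← zpow_add₀ two_ne_zero, neg_add_cancel, zpow_zero]

lemma pr_sq {z : ℚ_[2]} (hz : z ≠ 0) : pr (z ^ 2) := by
  obtain ⟨k, hk⟩ := unit_part hz
  refine ⟨2 * k, ?_⟩
  have e : z ^ 2 * 2 ^ (2 * k) = (z * 2 ^ k) ^ 2 := by
    rw [mul_pow, ← zpow_natCast ((2 : ℚ_[2]) ^ k) 2, ← zpow_mul]
    congr 2
    push_cast
    ring
  rw [e]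
  exact (unit_sq hk).trans (by norm_num)

lemma pr_dich {x : ℚ_[2]} (hx : x ≠ 0) : pr x ∨ pr (-x) := by
  obtain ⟨k, hk⟩ := unit_part hx
  rcases (unit_pm hk).2.2 with h | h
  · exact Or.inl ⟨k, h⟩
  · refine Or.inr ⟨k, ?_⟩
    have e : -x * 2 ^ k - 1 = -(x * 2 ^ k + 1) := by ring
    rwa [e, norm_neg]

lemma not_pr_neg : ¬ pr (-1) := by
  rintro ⟨k, hk⟩
  have h1 := near hk
  rw [norm_mul, norm_neg, norm_one, one_mul, norm_zpow, n2] at h1
  have hk0 : k = 0 := by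
    rcases lt_trichotomy k 0 with h | h | h
    · exfalso
      have := one_lt_zpow_of_neg₀ (a := (1 / 2 : ℝ)) (by norm_num) (by norm_num) h
      linarith
    · exact h
    · exfalso
      have := zpow_lt_one₀ (a := (1 / 2 : ℝ)) (by norm_num) (by norm_num) h
      linarith
  rw [hk0, zpow_zero, mul_one] at hk
  have e : (-1 : ℚ_[2]) - 1 = -2 := by norm_num
  rw [e, norm_neg, n2] at hk
  norm_num at hk

lemma mq : Mq pr where
  mul _ _ := pr_mul
  sq x z hz := by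
    constructor
    · intro h
      have h1 := pr_mul h (pr_inv (pr_sq hz))
      rwa [mul_assoc, mul_inv_cancel₀ (pow_ne_zero 2 hz), mul_one] at h1
    · intro h
      exact pr_mul h (pr_sq hz)

lemma zpow_norm {k : ℤ} (h : ‖(2 : ℚ_[2]) ^ k‖ = 1) : k = 0 := by
  rw [norm_zpow, n2] at h
  rcases lt_trichotomy k 0 with h1 | h1 | h1
  · exfalso
    have := one_lt_zpow_of_neg₀ (a := (1 / 2 : ℝ)) (by norm_num) (by norm_num) h1
    linarith
  · exact h1
  · exfalso
    have := zpow_lt_one₀ (a := (1 / 2 : ℝ)) (by norm_num) (by norm_num) h1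
    linarith

variable {n : ℕ}

/-- singular reduction at two -/
lemma sing_two (hn : n % 2 = 1) {x y : ℚ_[2]} (h : (Wp 2 n).toAffine.Nonsingular x y) :
    SingRed (WB n) 2 x y ↔ ‖x‖ = 1 := by
  have hE := eqn h.1
  have nN : ‖(n : ℚ_[2])‖ = 1 := nu (by omega)
  have l2 : ‖(2 : ℚ_[2])‖ < 1 := by rw [n2]; norm_num
  have l3 : ‖((3 : ℕ) : ℚ_[2])‖ ≤ 1 := nn _
  rw [sing_def]
  constructor
  · rintro ⟨hx, hy, h4, -⟩
    refine le_antisymm hx (not_lt.1 fun hlt => ?_)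
    have e : (n : ℚ_[2]) ^ 2 = (3 * x ^ 2 + 2 * n * x + (n : ℚ_[2]) ^ 2) -
        x * (((3 : ℕ) : ℚ_[2]) * x + 2 * n) := by
      push_cast
      ring
    have l : ‖(n : ℚ_[2]) ^ 2‖ < 1 := by
      rw [e]
      exact lsub h4 (lmul' hlt (nadd (nmul l3 hx) (nmul l2.le (nn _))))
    rw [norm_pow, nN] at l
    norm_num at l
  · intro hx
    have hy : ‖y‖ ≤ 1 := by
      have : ‖y ^ 2‖ ≤ 1 := by
        rw [hE]
        exact nmul hx.le (nadd (nadd (npow hx.le 2) (nmul (nn _) hx.le)) (npow (nn _) 2))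
      rw [norm_pow] at this
      exact (pow_le_one_iff_of_nonneg (norm_nonneg _) two_ne_zero).1 this
    refine ⟨hx.le, hy, ?_, lmul' l2 hy⟩
    have e : 3 * x ^ 2 + 2 * n * x + (n : ℚ_[2]) ^ 2 = (x ^ 2 - 1) + ((n : ℚ_[2]) ^ 2 - 1) +
        2 * (x ^ 2 + n * x + 1) := by ring
    rw [e]
    refine ladd (ladd ?_ ?_) (lmul' l2 ?_)
    · exact lt_of_le_of_lt (unit_sq hx) (by norm_num)
    · exact lt_of_le_of_lt (unit_sq nN) (by norm_num)
    · exact nadd (nadd (npow hx.le 2) (nmul (nn _) hx.le)) (by rw [norm_one])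

lemma pr_of {x y r : ℚ_[2]} (hy : y ≠ 0) (h : y ^ 2 = x * r) (hr : ‖r - 1‖ ≤ 1 / 4) : pr x := by
  have h1 : pr r := ⟨0, by rwa [zpow_zero, mul_one]⟩
  have r0 : r ≠ 0 := by
    rintro rfl
    rw [mul_zero] at h
    exact hy (pow_eq_zero_iff two_ne_zero |>.1 h)
  have h2 := pr_mul (pr_sq hy) (pr_inv h1)
  rwa [h, mul_assoc, mul_inv_cancel₀ r0, mul_one] at h2

lemma val4 : (4 : ℚ_[2]).valuation = 2 := by
  have e : (4 : ℚ_[2]) = ((2 : ℕ) : ℚ_[2]) ^ 2 := by norm_num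
  rw [e, Padic.valuation_pow, Padic.valuation_p]
  norm_num

/-- the criterion -/
lemma crit (hn : n % 8 = 3) {x y : ℚ_[2]} (hE : y ^ 2 = x * (x ^ 2 + n * x + (n : ℚ_[2]) ^ 2))
    (hx : x ≠ 0) : pr x ↔ ‖x‖ ≠ 1 := by
  have nN : ‖(n : ℚ_[2])‖ = 1 := nu (by omega)
  have n0 : (n : ℚ_[2]) ≠ 0 := by
    intro h
    rw [h, norm_zero] at nN
    exact zero_ne_one nN
  have l2 : ‖(2 : ℚ_[2])‖ ≤ 1 := by rw [n2]; norm_num
  constructor
  · rintro ⟨k, hk⟩ hx1
    have h1 := near hk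
    rw [norm_mul, hx1, one_mul] at h1
    rw [zpow_norm h1, zpow_zero, mul_one] at hk
    obtain ⟨m, hm⟩ : ∃ m : ℕ, n = 8 * m + 3 := ⟨n / 8, by omega⟩
    set a := x - 1 with ha
    have ex : x = 1 + a := by rw [ha]; ring
    have la : ‖a‖ ≤ 1 := hk.trans (by norm_num)
    have e : y ^ 2 - 5 = 2 ^ 3 * (1 + m * (1 + 2 * a + a ^ 2) +
        2 * (((3 : ℕ) : ℚ_[2]) * m + ((4 : ℕ) : ℚ_[2]) * m ^ 2) * (1 + a)) +
        a * (2 * (((9 : ℕ) : ℚ_[2]) + ((3 : ℕ) : ℚ_[2]) * a) + a * a) := by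
      rw [hE, hm, ex]
      push_cast
      ring
    have b1 : ‖(1 : ℚ_[2])‖ ≤ 1 := by rw [norm_one]
    have h5 : ‖y ^ 2 - 5‖ ≤ 1 / 8 := by
      rw [e]
      refine (IsUltrametricDist.norm_add_le_max _ _).trans (max_le ?_ ?_)
      · rw [norm_mul, norm_pow, n2]
        have h6 : ‖1 + m * (1 + 2 * a + a ^ 2) +
            2 * (((3 : ℕ) : ℚ_[2]) * m + ((4 : ℕ) : ℚ_[2]) * m ^ 2) * (1 + a)‖ ≤ 1 :=
          nadd (nadd b1 (nmul (nn _) (nadd (nadd b1 (nmul l2 la)) (npow la 2))))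
            (nmul (nmul l2 (nadd (nmul (nn _) (nn _)) (nmul (nn _) (npow (nn _) 2)))) (nadd b1 la))
        calc _ ≤ (1 / 2 : ℝ) ^ 3 * 1 := mul_le_mul_of_nonneg_left h6 (by norm_num)
          _ = 1 / 8 := by norm_num
      · rw [norm_mul]
        have h6 : ‖2 * (((9 : ℕ) : ℚ_[2]) + ((3 : ℕ) : ℚ_[2]) * a) + a * a‖ ≤ 1 / 2 := by
          refine (IsUltrametricDist.norm_add_le_max _ _).trans (max_le ?_ ?_)
          · rw [norm_mul, n2]
            exact le_trans (mul_le_mul_of_nonneg_left (nadd (nn 9) (nmul (nn 3) la))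
              (by norm_num)) (by norm_num)
          · rw [norm_mul]
            nlinarith [norm_nonneg a]
        calc ‖a‖ * _ ≤ (1 / 4) * (1 / 2) := mul_le_mul hk h6 (norm_nonneg _) (by norm_num)
          _ = 1 / 8 := by norm_num
    have n5 : ‖(5 : ℚ_[2])‖ = 1 := by
      have := nu (p := 2) (k := 5) (by norm_num)
      exact_mod_cast this
    have hy1 : ‖y‖ = 1 := by
      have h6 : ‖y ^ 2 - 5‖ < ‖(5 : ℚ_[2])‖ := by
        rw [n5]
        linarith
      have h7 := IsUltrametricDist.norm_add_eq_max_of_norm_ne_norm h6.ne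
      rw [sub_add_cancel, max_eq_right h6.le, n5, norm_pow] at h7
      exact (pow_eq_one_iff_of_nonneg (norm_nonneg _) two_ne_zero).1 h7
    have h6 := unit_sq hy1
    have e4 : (4 : ℚ_[2]) = (y ^ 2 - 1) + -(y ^ 2 - 5) := by ring
    have h7 : ‖(4 : ℚ_[2])‖ ≤ 1 / 8 := by
      rw [e4]
      refine (IsUltrametricDist.norm_add_le_max _ _).trans (max_le h6 ?_)
      rwa [norm_neg]
    rw [n4] at h7
    norm_num at h7
  · intro hx1
    rcases lt_or_gt_of_ne hx1 with hlt | hgt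
    · set q := x ^ 2 + n * x + (n : ℚ_[2]) ^ 2 with hq
      have hxn : ‖x + n‖ ≤ 1 := nadd hlt.le (nn _)
      have e : q = x * (x + n) + (n : ℚ_[2]) ^ 2 := by rw [hq]; ring
      have nq : ‖q‖ = 1 := by
        have h1 : ‖x * (x + n)‖ < ‖(n : ℚ_[2]) ^ 2‖ := by
          rw [norm_pow, nN, one_pow]
          exact lmul' hlt hxn
        have h2 := IsUltrametricDist.norm_add_eq_max_of_norm_ne_norm h1.ne
        rw [e, h2, max_eq_right h1.le, norm_pow, nN, one_pow]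
      have q0 : q ≠ 0 := by
        intro h
        rw [h, norm_zero] at nq
        exact zero_ne_one nq
      have y0 : y ≠ 0 := by
        rintro rfl
        rw [zero_pow two_ne_zero] at hE
        exact (mul_ne_zero hx q0) hE.symm
      have vq : q.valuation = 0 := by
        have h5 : ¬ (0 < q.valuation) := by
          rw [← normlt_iff q0, nq]
          exact lt_irrefl _
        have h6 := (norm_le_iff q0 (one_ne_zero (α := ℚ_[2]))).1 (by rw [nq, norm_one])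
        rw [Padic.valuation_one] at h6
        omega
      have h7 := congrArg Padic.valuation hE
      rw [Padic.valuation_pow, Padic.valuation_mul hx q0, vq] at h7
      have h8 := (normlt_iff hx).1 hlt
      have h9 : ‖x‖ ≤ 1 / 4 := by
        rw [← n4, norm_le_iff hx (by norm_num), val4]
        push_cast at h7
        omega
      refine pr_of y0 hE ?_
      have e2 : q - 1 = x * (x + n) + ((n : ℚ_[2]) ^ 2 - 1) := by rw [e]; ring
      rw [e2]
      refine (IsUltrametricDist.norm_add_le_max _ _).trans (max_le ?_ ?_)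
      · rw [norm_mul]
        calc ‖x‖ * ‖x + n‖ ≤ (1 / 4) * 1 := mul_le_mul h9 hxn (norm_nonneg _) (by norm_num)
          _ = 1 / 4 := by norm_num
      · exact (unit_sq nN).trans (by norm_num)
    · set z := (n : ℚ_[2]) / x with hz
      have z0 : z ≠ 0 := div_ne_zero n0 hx
      have lz : ‖z‖ < 1 := by
        rw [hz, norm_div, nN, div_lt_one (by linarith)]
        exact hgt
      have l1z : ‖1 + z‖ ≤ 1 := nadd (by rw [norm_one]) lz.le
      set r := 1 + z * (1 + z) with hr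
      have nr : ‖r‖ = 1 := by
        have h1 : ‖z * (1 + z)‖ < ‖(1 : ℚ_[2])‖ := by
          rw [norm_one]
          exact lmul' lz l1z
        have h2 := IsUltrametricDist.norm_add_eq_max_of_norm_ne_norm h1.ne'
        rw [hr, h2, max_eq_left h1.le, norm_one]
      have r0 : r ≠ 0 := by
        intro h
        rw [h, norm_zero] at nr
        exact zero_ne_one nr
      have hE' : y ^ 2 = x ^ 3 * r := by
        rw [hE, hr, hz]
        field_simp
        ring
      have hE2 : (y / x) ^ 2 = x * r := by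
        rw [div_pow, hE']
        field_simp
      have y0 : y ≠ 0 := by
        rintro rfl
        rw [zero_pow two_ne_zero] at hE'
        exact (mul_ne_zero (pow_ne_zero 3 hx) r0) hE'.symm
      have vr : r.valuation = 0 := by
        have h5 : ¬ (0 < r.valuation) := by
          rw [← normlt_iff r0, nr]
          exact lt_irrefl _
        have h6 := (norm_le_iff r0 (one_ne_zero (α := ℚ_[2]))).1 (by rw [nr, norm_one])
        rw [Padic.valuation_one] at h6
        omega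
      have vn : (n : ℚ_[2]).valuation = 0 := by
        have h5 : ¬ (0 < (n : ℚ_[2]).valuation) := by
          rw [← normlt_iff n0, nN]
          exact lt_irrefl _
        have h6 := (norm_le_iff n0 (one_ne_zero (α := ℚ_[2]))).1 (by rw [nN, norm_one])
        rw [Padic.valuation_one] at h6
        omega
      have h7 := congrArg Padic.valuation hE'
      rw [Padic.valuation_pow, Padic.valuation_mul (pow_ne_zero 3 hx) r0, vr,
        Padic.valuation_pow] at h7
      have h8 := (normlt_iff z0).1 lz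
      have h10 : z.valuation + x.valuation = 0 := by
        rw [← Padic.valuation_mul z0 hx, hz, div_mul_cancel₀ _ hx, vn]
      have h9 : ‖z‖ ≤ 1 / 4 := by
        rw [← n4, norm_le_iff z0 (by norm_num), val4]
        push_cast at h7
        omega
      refine pr_of (div_ne_zero y0 hx) hE2 ?_
      have e2 : r - 1 = z * (1 + z) := by rw [hr]; ring
      rw [e2, norm_mul]
      calc ‖z‖ * ‖1 + z‖ ≤ (1 / 4) * 1 := mul_le_mul h9 l1z (norm_nonneg _) (by norm_num)
        _ = 1 / 4 := by norm_num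

/-- the index at two -/
lemma two (hn : n % 8 = 3) : (E0 (WB n) 2).index = 2 := by
  have nN : ‖(n : ℚ_[2])‖ = 1 := nu (by omega)
  have n0 : (n : ℚ_[2]) ≠ 0 := by
    intro h
    rw [h, norm_zero] at nN
    exact zero_ne_one nN
  set S := wr0 (p := 2) n0 with hS
  have hEG : E0 (WB n) 2 = GP S mq := by
    apply AddSubgroup.ext
    intro P
    rcases P with _ | ⟨x, y, h⟩
    · exact ⟨fun _ => (GP S mq).zero_mem, fun _ => (E0 (WB n) 2).zero_mem⟩
    · rw [mem_E0, sing_two (by omega) h]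
      show _ ↔ (Affine.Point.some x y h : (Wp 2 n).toAffine.Point) ∈ GP S mq
      rw [mem_GP]
      by_cases hx : x = 0
      · rw [hx, dv_T, norm_zero]
        exact ⟨fun _ => pr_sq n0, fun _ => zero_ne_one⟩
      · rw [dv_ne hx, sub_zero, crit hn (eqn h.1) hx]
  rw [hEG]
  obtain ⟨m, hm⟩ : ∃ m : ℕ, n = 8 * m + 3 := ⟨n / 8, by omega⟩
  obtain ⟨y0, hy0⟩ := padic_sq2 (n := -(1 - (n : ℤ) + (n : ℤ) ^ 2)) (by
    have e : -(1 - (n : ℤ) + (n : ℤ) ^ 2) = 8 * (-8 * (m : ℤ) ^ 2 - 5 * m - 1) + 1 := by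
      rw [hm]
      push_cast
      ring
    rw [e]
    omega)
  push_cast at hy0
  have hq : ¬ pr (-1) := not_pr_neg
  have y00 : y0 ≠ 0 := by
    rintro rfl
    have h1 : (1 : ℚ_[2]) - n + (n : ℚ_[2]) ^ 2 = 0 := by linear_combination -hy0
    have h2 : ((1 + n * (n - 1) : ℤ) : ℚ_[2]) = 0 := by
      push_cast
      linear_combination h1
    have h3 : (1 + (n : ℤ) * (n - 1)) = 0 := by exact_mod_cast h2
    have : (0 : ℤ) < 1 + (n : ℤ) * (n - 1) := by
      have : (1 : ℤ) ≤ n := by omega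
      nlinarith
    omega
  have hns : (Wp 2 n).toAffine.Nonsingular (-1) y0 := by
    rw [Affine.nonsingular_iff, Affine.equation_iff]
    simp only [Wp, WB, WeierstrassCurve.map_a₁, WeierstrassCurve.map_a₂, WeierstrassCurve.map_a₃,
      WeierstrassCurve.map_a₄, WeierstrassCurve.map_a₆, map_zero, map_pow, map_natCast]
    refine ⟨by linear_combination -hy0, Or.inr ?_⟩
    intro h
    apply y00
    have h2 : 2 * y0 = 0 := by linear_combination h
    exact (mul_eq_zero.1 h2).resolve_left two_ne_zero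
  refine GP_index S mq ?_ (Q := (Affine.Point.some (-1) y0 hns : (Wp 2 n).toAffine.Point)) ?_
  · intro x y hx hy h1 h2
    have h3 := (pr_dich hx).resolve_left h1
    have h4 := (pr_dich hy).resolve_left h2
    have := pr_mul h3 h4
    rwa [neg_mul_neg] at this
  · rw [mem_GP, dv_ne (by norm_num), sub_zero]
    exact hq

end two

/-- **SN-TB** -/
theorem t_TB : S_TB := by
  intro n hF p hp
  obtain ⟨hs, h24⟩ := hF
  refine ⟨⟨E0 (WB n) p, ?_, ?_⟩, ?_⟩
  · intro P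
    rw [t_E0]
    constructor
    · rintro h ⟨x, y, h', he, h1⟩
      exact h x y h' he h1
    · intro h x y h' he h1
      exact h ⟨x, y, h', he, h1⟩
  · unfold cB
    split_ifs with h2 hd h3
    · subst h2
      exact two (by omega)
    · obtain ⟨w, hw⟩ := exists_root h2 (by omega) h3
      refine ram_four (by omega) hd hs hw
    · have hp3 : p ≠ 3 := by
        rintro rfl
        omega
      have h4 : p % 3 ≠ 0 := by
        intro h4
        exact hp3 (((Nat.prime_dvd_prime_iff_eq Nat.prime_three hp.out).1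
          (Nat.dvd_of_mod_eq_zero h4)).symm)
      exact ram_two (by omega) hd hs
    · by_cases hp3 : p = 3
      · subst hp3
        exact three (by omega)
      · exact good h2 hp3 hd
  · intro hΔ
    have e : (WB n).Δ = -48 * (n : ℤ) ^ 6 := by
      simp only [WeierstrassCurve.Δ, WeierstrassCurve.b₂, WeierstrassCurve.b₄, WeierstrassCurve.b₆,
        WeierstrassCurve.b₈, WB]
      ring
    rw [e] at hΔ
    unfold cB
    split_ifs with h2 hd h3
    · exfalso
      subst h2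
      exact hΔ ⟨-24 * (n : ℤ) ^ 6, by push_cast; ring⟩
    · exfalso
      exact hΔ (Dvd.dvd.mul_left (dvd_pow (by exact_mod_cast hd) (by norm_num)) _)
    · exfalso
      exact hΔ (Dvd.dvd.mul_left (dvd_pow (by exact_mod_cast hd) (by norm_num)) _)
    · rfl

end Pool.Agent.N897.SN.TB
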